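import Mathlib

/-!
# MP_ee1cd8_co: the closed unit square and the closed right isosceles triangle of area one are not
equidecomposable using two pieces

Proof. Let `a = (-1,0)`, `b = (1,0)`, `c = (0,1)` be the vertices of `T`. The piece containing `c`
contains exactly one of `a, b` (say `α`), whose distance to `c` is the diameter of the square, so
that piece lives on one side of the altitude; the other piece contains the other side, hence, by
closedness, its copy of the square also has a diagonal equal to the other leg. Then both legs have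
as midpoint the image of the centre of the square, which would lie in both pieces.
-/

namespace Pool.Agent.Results.MP_ee1cd8_co.AtLeastThree

open Set

/-- The Euclidean plane. -/
abbrev E := EuclideanSpace ℝ (Fin 2)

/-- `A` and `B` are equidecomposable using `n` pieces (arbitrary sets, arbitrary isometries). -/
def Equidecomposable (n : ℕ) (A B : Set E) : Prop :=
  ∃ (P Q : Fin n → Set E) (g : Fin n → E ≃ᵢ E),
    (⋃ i, P i) = A ∧ (∀ i j, i ≠ j → Disjoint (P i) (P j)) ∧
    (⋃ i, Q i) = B ∧ (∀ i j, i ≠ j → Disjoint (Q i) (Q j)) ∧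
    ∀ i, g i '' P i = Q i

/-- The closed unit square `[0,1]²`. -/
def S : Set E := {p | 0 ≤ p 0 ∧ p 0 ≤ 1 ∧ 0 ≤ p 1 ∧ p 1 ≤ 1}

/-- The closed triangle with vertices `(-1,0)`, `(1,0)`, `(0,1)`: legs `√2`, hypotenuse `2`. -/
def T : Set E := {p | 0 ≤ p 1 ∧ p 0 + p 1 ≤ 1 ∧ p 1 - p 0 ≤ 1}

/-- The point `(x, y)`. -/
noncomputable def pt (x y : ℝ) : E := !₂[x, y]

@[simp] theorem pt_zero (x y : ℝ) : pt x y 0 = x := by simp [pt]

@[simp] theorem pt_one (x y : ℝ) : pt x y 1 = y := by simp [pt]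

theorem ext2 {p q : E} (h0 : p 0 = q 0) (h1 : p 1 = q 1) : p = q := by
  ext i
  fin_cases i
  · exact h0
  · exact h1

theorem iso (g : E ≃ᵢ E) (p q : E) :
    (g p 0 - g q 0) ^ 2 + (g p 1 - g q 1) ^ 2 = (p 0 - q 0) ^ 2 + (p 1 - q 1) ^ 2 := by
  have h := g.dist_eq p q
  rw [EuclideanSpace.dist_eq, EuclideanSpace.dist_eq] at h
  have h2 := (Real.sqrt_inj (by positivity) (by positivity)).1 h
  simpa [Fin.sum_univ_two, Real.dist_eq, sq_abs] using h2

theorem isClosed_S : IsClosed S := by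
  have h0 : Continuous fun p : E => p 0 := by fun_prop
  have h1 : Continuous fun p : E => p 1 := by fun_prop
  exact (isClosed_le continuous_const h0).inter ((isClosed_le h0 continuous_const).inter
    ((isClosed_le continuous_const h1).inter (isClosed_le h1 continuous_const)))

/-- Two points of the unit square at distance `√2` are opposite corners. -/
theorem corner {p q : E} (hp : p ∈ S) (hq : q ∈ S)
    (h : (p 0 - q 0) ^ 2 + (p 1 - q 1) ^ 2 = 2) :
    (q 0 = 1 - p 0 ∧ q 1 = 1 - p 1) ∧ (p 0 = 0 ∨ p 0 = 1) ∧ (p 1 = 0 ∨ p 1 = 1) := by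
  obtain ⟨a1, a2, a3, a4⟩ := hp
  obtain ⟨b1, b2, b3, b4⟩ := hq
  have e0 : (p 0 - q 0) ^ 2 ≤ 1 := by nlinarith
  have e1 : (p 1 - q 1) ^ 2 ≤ 1 := by nlinarith
  have f0 : (p 0 - q 0 - 1) * (p 0 - q 0 + 1) = 0 := by nlinarith
  have f1 : (p 1 - q 1 - 1) * (p 1 - q 1 + 1) = 0 := by nlinarith
  rcases mul_eq_zero.1 f0 with f0 | f0 <;> rcases mul_eq_zero.1 f1 with f1 | f1
  · exact ⟨⟨by linarith, by linarith⟩, Or.inr (by linarith), Or.inr (by linarith)⟩
  · exact ⟨⟨by linarith, by linarith⟩, Or.inr (by linarith), Or.inl (by linarith)⟩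
  · exact ⟨⟨by linarith, by linarith⟩, Or.inl (by linarith), Or.inr (by linarith)⟩
  · exact ⟨⟨by linarith, by linarith⟩, Or.inl (by linarith), Or.inl (by linarith)⟩

/-- A square root of one is a sign. -/
theorem sign_cases {s : ℝ} (hs : s ^ 2 = 1) : s = 1 ∨ s = -1 := by
  have h : (s - 1) * (s + 1) = 0 := by linear_combination hs
  rcases mul_eq_zero.1 h with h | h
  · left; linarith
  · right; linarith

/-- Points at distance one from `(s,0)` and `(0,1)`. -/
theorem two_points {s : ℝ} (hs : s ^ 2 = 1) {z : E} (h1 : (z 0 - s) ^ 2 + (z 1 - 0) ^ 2 = 1)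
    (h2 : (z 0 - 0) ^ 2 + (z 1 - 1) ^ 2 = 1) : (z 0 = 0 ∧ z 1 = 0) ∨ (z 0 = s ∧ z 1 = 1) := by
  have h3 : z 1 = s * z 0 := by linear_combination (h1 - h2) / 2 - hs / 2
  have h4 : z 0 * (z 0 - s) = 0 := by
    rw [h3] at h1
    have : s ^ 2 * z 0 ^ 2 = z 0 ^ 2 := by rw [hs]; ring
    nlinarith
  rcases mul_eq_zero.1 h4 with h | h
  · left; exact ⟨h, by rw [h3, h]; ring⟩
  · right
    have : z 0 = s := by linarith
    exact ⟨this, by rw [h3, this]; linear_combination hs⟩

/-- If the copy `g S` of the square contains `(s,0)` and `(0,1)`, `s = ±1`, then it lies on one side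
of the altitude and its centre is the midpoint of these two points. -/
theorem key {s : ℝ} (hs : s ^ 2 = 1) (g : E ≃ᵢ E) {u v : E} (hu : u ∈ S) (hv : v ∈ S)
    (gu : g u = pt s 0) (gv : g v = pt 0 1) :
    (∀ p ∈ S, 0 ≤ s * g p 0) ∧ g (pt (1 / 2) (1 / 2)) = pt (s / 2) (1 / 2) := by
  have huv : (u 0 - v 0) ^ 2 + (u 1 - v 1) ^ 2 = 2 := by
    rw [← iso g u v, gu, gv]
    simp only [pt_zero, pt_one]
    linear_combination hs
  obtain ⟨⟨v0, v1⟩, u0, u1⟩ := corner hu hv huv
  have su0 : u 0 * (u 0 - 1) = 0 := by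
    rcases u0 with h | h <;> rw [h] <;> ring
  have su1 : u 1 * (u 1 - 1) = 0 := by
    rcases u1 with h | h <;> rw [h] <;> ring
  have q0 : (u 0 - v 0) ^ 2 = 1 := by rw [v0]; linear_combination 4 * su0
  have q1 : (u 1 - v 1) ^ 2 = 1 := by rw [v1]; linear_combination 4 * su1
  constructor
  · -- the two other corners
    have w1 := two_points hs (z := g (pt (u 0) (v 1)))
      (by
        have := iso g (pt (u 0) (v 1)) u
        rw [gu] at this
        simp only [pt_zero, pt_one] at this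
        linear_combination this + q1)
      (by
        have := iso g (pt (u 0) (v 1)) v
        rw [gv] at this
        simp only [pt_zero, pt_one] at this
        linear_combination this + q0)
    have w2 := two_points hs (z := g (pt (v 0) (u 1)))
      (by
        have := iso g (pt (v 0) (u 1)) u
        rw [gu] at this
        simp only [pt_zero, pt_one] at this
        linear_combination this + q0)
      (by
        have := iso g (pt (v 0) (u 1)) v
        rw [gv] at this
        simp only [pt_zero, pt_one] at this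
        linear_combination this + q1)
    have w12 := iso g (pt (u 0) (v 1)) (pt (v 0) (u 1))
    have w3 : (g (pt (u 0) (v 1)) 0 - g (pt (v 0) (u 1)) 0) ^ 2
        + (g (pt (u 0) (v 1)) 1 - g (pt (v 0) (u 1)) 1) ^ 2 = 2 := by
      rw [w12]
      simp only [pt_zero, pt_one]
      linear_combination q0 + q1
    have hw : (g (pt (u 0) (v 1)) 0 = 0 ∧ g (pt (u 0) (v 1)) 1 = 0) ∨
        (g (pt (v 0) (u 1)) 0 = 0 ∧ g (pt (v 0) (u 1)) 1 = 0) := by
      rcases w1 with w1 | w1
      · exact Or.inl w1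
      · rcases w2 with w2 | w2
        · exact Or.inr w2
        · exfalso
          rw [w1.1, w1.2, w2.1, w2.2] at w3
          norm_num at w3
    intro p hp
    obtain ⟨p1, p2, p3, p4⟩ := hp
    have e1 := iso g p u
    rw [gu] at e1
    simp only [pt_zero, pt_one] at e1
    rcases hw with hw | hw
    · have e2 := iso g p (pt (u 0) (v 1))
      rw [hw.1, hw.2] at e2
      simp only [pt_zero, pt_one] at e2
      have hh : s * g p 0 = (1 - (p 1 - u 1) ^ 2 + (p 1 - v 1) ^ 2) / 2 := by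
        linear_combination (e2 - e1) / 2 + hs / 2
      rw [hh, v1]
      rcases u1 with h | h <;> rw [h] <;> nlinarith
    · have e2 := iso g p (pt (v 0) (u 1))
      rw [hw.1, hw.2] at e2
      simp only [pt_zero, pt_one] at e2
      have hh : s * g p 0 = (1 - (p 0 - u 0) ^ 2 + (p 0 - v 0) ^ 2) / 2 := by
        linear_combination (e2 - e1) / 2 + hs / 2
      rw [hh, v0]
      rcases u0 with h | h <;> rw [h] <;> nlinarith
  · have e1 := iso g (pt (1 / 2) (1 / 2)) u
    have e2 := iso g (pt (1 / 2) (1 / 2)) v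
    rw [gu] at e1
    rw [gv] at e2
    simp only [pt_zero, pt_one] at e1 e2
    generalize g (pt (1 / 2) (1 / 2)) = q at e1 e2 ⊢
    have f1 : (q 0 - s) ^ 2 + (q 1) ^ 2 = 1 / 2 := by linear_combination e1 + su0 + su1
    have f2 : (q 0) ^ 2 + (q 1 - 1) ^ 2 = 1 / 2 := by
      rw [v0, v1] at e2
      linear_combination e2 + su0 + su1
    have f3 : q 1 = s * q 0 := by linear_combination (f1 - f2) / 2 - hs / 2
    have f4 : (q 0 - s / 2) ^ 2 = 0 := by
      rw [f3] at f1
      linear_combination f1 / 2 - (q 0 ^ 2 / 2 + 1 / 4) * hs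
    have f5 : q 0 = s / 2 := by
      have := (pow_eq_zero_iff two_ne_zero).1 f4
      linarith
    refine ext2 ?_ ?_
    · rw [f5, pt_zero]
    · rw [f3, f5, pt_one]
      linear_combination hs / 2

/-- No decomposition in which the first piece covers the apex. -/
theorem no_two (X Y : Set E) (g h : E ≃ᵢ E) (hX : X ∪ Y = S) (hd : Disjoint X Y)
    (hT : g '' X ∪ h '' Y = T) (hc : pt 0 1 ∈ g '' X) : False := by
  have XS : X ⊆ S := hX ▸ subset_union_left
  have YS : Y ⊆ S := hX ▸ subset_union_right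
  -- a sign `s` with `(s,0)` in the first piece and `(-s,0)` in the second one
  have ends : ∀ r : ℝ, r = 1 ∨ r = -1 → pt r 0 ∈ g '' X ∪ h '' Y := by
    intro r hr
    rw [hT]
    show 0 ≤ pt r 0 1 ∧ pt r 0 0 + pt r 0 1 ≤ 1 ∧ pt r 0 1 - pt r 0 0 ≤ 1
    rw [pt_zero, pt_one]
    rcases hr with rfl | rfl <;> norm_num
  have far : ∀ (k : E ≃ᵢ E) (Z : Set E), Z ⊆ S → pt 1 0 ∈ k '' Z → pt (-1) 0 ∈ k '' Z → False := by
    rintro k Z hZ ⟨x, hx, hx'⟩ ⟨y, hy, hy'⟩
    have := iso k x y
    rw [hx', hy'] at this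
    obtain ⟨a1, a2, a3, a4⟩ := hZ hx
    obtain ⟨b1, b2, b3, b4⟩ := hZ hy
    simp only [pt_zero, pt_one] at this
    have e0 : (x 0 - y 0) ^ 2 ≤ 1 := by nlinarith
    have e1 : (x 1 - y 1) ^ 2 ≤ 1 := by nlinarith
    linarith
  obtain ⟨s, hs, hsX, hsY⟩ : ∃ s : ℝ, s ^ 2 = 1 ∧ pt s 0 ∈ g '' X ∧ pt (-s) 0 ∈ h '' Y := by
    rcases ends 1 (Or.inl rfl) with h1 | h1 <;> rcases ends (-1) (Or.inr rfl) with h2 | h2
    · exact absurd (far g X XS h1 h2) id
    · exact ⟨1, by norm_num, h1, h2⟩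
    · exact ⟨-1, by norm_num, h2, by rw [neg_neg]; exact h1⟩
    · exact absurd (far h Y YS h1 h2) id
  have hss := sign_cases hs
  obtain ⟨u, hu, gu⟩ := hsX
  obtain ⟨v, hv, gv⟩ := hc
  obtain ⟨k1, k2⟩ := key hs g (XS hu) (XS hv) gu gv
  -- the other side of the altitude is covered by the second piece
  have other : ∀ q ∈ T, s * q 0 < 0 → q ∈ h '' Y := by
    intro q hq hq0
    rw [← hT] at hq
    rcases hq with ⟨x, hx, rfl⟩ | hq
    · exact absurd (k1 x (XS hx)) (not_le.2 hq0)
    · exact hq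
  obtain ⟨u', hu', gu'⟩ := hsY
  have hcl : h.symm (pt 0 1) ∈ S := by
    have hcont : Continuous fun t : ℝ => h.symm (pt 0 1 + t • pt (-s) (-1)) :=
      h.symm.continuous.comp (by fun_prop)
    have hclosed : IsClosed {t : ℝ | h.symm (pt 0 1 + t • pt (-s) (-1)) ∈ S} :=
      isClosed_S.preimage hcont
    have hsub : Ioc (0 : ℝ) 1 ⊆ {t : ℝ | h.symm (pt 0 1 + t • pt (-s) (-1)) ∈ S} := by
      rintro t ⟨t0, t1⟩
      have c0 : (pt 0 1 + t • pt (-s) (-1)) 0 = -(t * s) := by
        simp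
      have c1 : (pt 0 1 + t • pt (-s) (-1)) 1 = 1 - t := by
        simp; ring
      have hmem : pt 0 1 + t • pt (-s) (-1) ∈ h '' Y := by
        apply other
        · show 0 ≤ (pt 0 1 + t • pt (-s) (-1)) 1 ∧
            (pt 0 1 + t • pt (-s) (-1)) 0 + (pt 0 1 + t • pt (-s) (-1)) 1 ≤ 1 ∧
            (pt 0 1 + t • pt (-s) (-1)) 1 - (pt 0 1 + t • pt (-s) (-1)) 0 ≤ 1
          rw [c0, c1]
          rcases hss with h | h <;> rw [h] <;> refine ⟨?_, ?_, ?_⟩ <;> linarith
        · rw [c0]
          rcases hss with h | h <;> rw [h] <;> linarith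
      obtain ⟨y, hy, hy'⟩ := hmem
      have : h.symm (pt 0 1 + t • pt (-s) (-1)) = y := by rw [← hy']; simp
      show h.symm (pt 0 1 + t • pt (-s) (-1)) ∈ S
      rw [this]
      exact YS hy
    have h0 : (0 : ℝ) ∈ closure (Ioc (0 : ℝ) 1) := by
      rw [closure_Ioc (by norm_num)]
      exact ⟨le_refl _, zero_le_one⟩
    have h00 := hclosed.closure_subset_iff.2 hsub h0
    have h01 : h.symm (pt 0 1 + (0 : ℝ) • pt (-s) (-1)) ∈ S := h00
    rw [zero_smul, add_zero] at h01
    exact h01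
  obtain ⟨k3, k4⟩ := key (s := -s) (by linear_combination hs) h (YS hu') hcl gu'
    (h.apply_symm_apply _)
  -- the centre lies in both pieces
  have memT : ∀ r : ℝ, r = 1 / 2 ∨ r = -1 / 2 → pt r (1 / 2) ∈ T := by
    intro r hr
    show 0 ≤ pt r (1 / 2) 1 ∧ pt r (1 / 2) 0 + pt r (1 / 2) 1 ≤ 1 ∧
      pt r (1 / 2) 1 - pt r (1 / 2) 0 ≤ 1
    rw [pt_zero, pt_one]
    rcases hr with rfl | rfl <;> norm_num
  have m1 : pt (1 / 2) (1 / 2) ∈ X := by
    have hq : pt (s / 2) (1 / 2) ∈ T := by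
      apply memT
      rcases hss with h | h <;> rw [h]
      · exact Or.inl rfl
      · exact Or.inr rfl
    rw [← hT] at hq
    rcases hq with ⟨x, hx, hx'⟩ | ⟨y, hy, hy'⟩
    · have : x = pt (1 / 2) (1 / 2) := g.injective (by rw [hx', k2])
      rwa [← this]
    · exfalso
      have := k3 y (YS hy)
      rw [hy', pt_zero] at this
      nlinarith
  have m2 : pt (1 / 2) (1 / 2) ∈ Y := by
    have hq : pt (-s / 2) (1 / 2) ∈ h '' Y := by
      apply other
      · apply memT
        rcases hss with h | h <;> rw [h]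
        · exact Or.inr rfl
        · left; norm_num
      · rw [pt_zero]
        nlinarith
    obtain ⟨y, hy, hy'⟩ := hq
    have : y = pt (1 / 2) (1 / 2) := h.injective (by rw [hy', k4])
    rwa [← this]
  exact (Set.disjoint_left.1 hd) m1 m2

/-- **MP_ee1cd8_co, lower bound `N ≥ 3`.** If the closed unit square and the closed isosceles right
triangle of the same area are equidecomposable using `n` pieces, then `n ≥ 3`. -/
theorem result : ∀ n : ℕ, Equidecomposable n S T → 3 ≤ n := by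
  intro n hn
  by_contra hlt
  have h2 : n ≤ 2 := by omega
  obtain ⟨P, Q, g, hP, hPd, hQ, hQd, hg⟩ := hn
  -- write it with two pieces
  obtain ⟨X, Y, g1, g2, hX, hd, hT⟩ : ∃ (X Y : Set E) (g1 g2 : E ≃ᵢ E), X ∪ Y = S ∧
      Disjoint X Y ∧ g1 '' X ∪ g2 '' Y = T := by
    interval_cases n
    · exfalso
      have : pt 0 0 ∈ S := ⟨by simp, by simp, by simp, by simp⟩
      rw [← hP] at this
      simp at this
    · refine ⟨P 0, ∅, g 0, g 0, ?_, by simp, ?_⟩
      · rw [← hP]; ext x; simp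
      · rw [← hQ, hg]; ext x; simp
    · refine ⟨P 0, P 1, g 0, g 1, ?_, hPd 0 1 (by decide), ?_⟩
      · rw [← hP]; ext x; simp [Fin.exists_fin_two]
      · rw [← hQ, hg, hg]; ext x; simp [Fin.exists_fin_two]
  have hc : pt 0 1 ∈ g1 '' X ∪ g2 '' Y := by
    rw [hT]
    refine ⟨?_, ?_, ?_⟩ <;> simp
  rcases hc with hc | hc
  · exact no_two X Y g1 g2 hX hd hT hc
  · exact no_two Y X g2 g1 (by rw [union_comm]; exact hX) hd.symm (by rw [union_comm]; exact hT) hc

end Pool.Agent.Results.MP_ee1cd8_co.AtLeastThree
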